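import Mathlib

/-!
Project MI: parity of the number of missing integers (MP_657ff6_co, MP_b2a904_nt, MP_781ce4_nt).
All statements of the parts, as `Prop`s.  No `sorry` here.
-/

open Finset Polynomial

noncomputable section

namespace Pool.Agent.N463.MI

/-! ### definitions -/

/-- `∏_{k<L} (1 + a X^{k+1}) ∏_{k<L} (1 - X^{2k+1})`; coefficient of `X^n` is stable for `L ≥ n`. -/
def fpoly (a : ℤ) (L : ℕ) : ℤ[X] :=
  (∏ k ∈ range L, (1 + C a * X ^ (k + 1))) * ∏ k ∈ range L, (1 - X ^ (2 * k + 1))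

/-- coefficient of `X^n` in `∏_{k≥1} (1 + a X^k) / (1 + X^k)`. -/
def cc (a : ℤ) (n : ℕ) : ℤ := (fpoly a n).coeff n

/-- `∏_{k<L} (1 + a X^{k+1})`. -/
def dpoly (a : ℤ) (L : ℕ) : ℤ[X] := ∏ k ∈ range L, (1 + C a * X ^ (k + 1))

/-- number of partitions of `n` into distinct parts, as a coefficient. -/
def qq (n : ℕ) : ℤ := (dpoly 1 n).coeff n

/-- the infinite product `∏_{k≥1} (1 + z q^k)`. -/
def PP (z q : ℂ) : ℂ := ∏' k : ℕ, (1 + z * q ^ (k + 1))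

/-- the generating function `∏_{k≥1} (1 + a q^k)/(1 + q^k)`. -/
def FF (a : ℝ) (q : ℂ) : ℂ := PP (a : ℂ) q / PP 1 q

/-- the constant `c_a = (log a)^2/2 + ∫_0^{log a} log (1 + e^{-v}) dv`
(`= 0.61430..` for `a = 2`, `1.11692..` for `a = 3`). -/
def cst (a : ℝ) : ℝ :=
  (Real.log a) ^ 2 / 2 + ∫ v in (0 : ℝ)..(Real.log a), Real.log (1 + Real.exp (-v))

/-- the kernel `sinh s / (cosh s - cos φ)`. -/
def kr (s φ : ℝ) : ℝ := Real.sinh s / (Real.cosh s - Real.cos φ)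

/-- `(-1)^{m-1} (2 cos (mψ) - 1 - a^{-m})`, here for the index `m = j + 1`. -/
def cf (a ψ : ℝ) (j : ℕ) : ℝ :=
  (-1) ^ j * (2 * Real.cos ((j + 1 : ℕ) * ψ) - 1 - (a⁻¹) ^ (j + 1))

/-- the point `exp (-t + i θ)`. -/
def pt (t θ : ℝ) : ℂ := Complex.exp (-(t : ℂ) + (θ : ℂ) * Complex.I)

/-- admissible pairs `(a, K)`. -/
def Adm (a : ℝ) (K : ℕ) : Prop := (a = 2 ∧ 340 ≤ K) ∨ (a = 3 ∧ 400 ≤ K)

/-! ### analytic foundation -/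

/-- A01: Euler's identity, and non-vanishing. -/
def A01 : Prop := ∀ q : ℂ, ‖q‖ < 1 →
  PP 1 q ≠ 0 ∧ Multipliable (fun k : ℕ => 1 - q ^ (2 * k + 1)) ∧
  PP 1 q * (∏' k : ℕ, (1 - q ^ (2 * k + 1))) = 1

/-- A02a: the power series of `FF`. -/
def A02a : Prop := ∀ (a : ℤ) (q : ℂ), ‖q‖ < 1 →
  Summable (fun n : ℕ => ‖((cc a n : ℤ) : ℂ) * q ^ n‖) ∧
  ∑' n : ℕ, ((cc a n : ℤ) : ℂ) * q ^ n = FF (a : ℝ) q

/-- A02: the coefficient formula on circles and continuity. -/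
def A02 : Prop := ∀ (a : ℤ) (t : ℝ), 0 < t →
  Continuous (fun θ : ℝ => FF (a : ℝ) (pt t θ)) ∧
  ∀ n : ℕ, (∫ θ in (-Real.pi)..Real.pi,
      FF (a : ℝ) (pt t θ) * Complex.exp (-((n : ℂ) * (θ : ℂ) * Complex.I)))
    = ((2 * Real.pi * Real.exp (-(n * t)) * (cc a n : ℝ) : ℝ) : ℂ)

/-- A03: splitting the product at `K`. -/
def A03 : Prop := ∀ (a : ℝ) (K : ℕ) (θ : ℝ), 1 < a → 1 ≤ K →
  ∀ t : ℝ, t = Real.log a / K → ∀ ζ : ℂ, ζ = Complex.exp ((K * θ : ℝ) * Complex.I) →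
  PP (a : ℂ) (pt t θ) * ((1 + (a : ℂ)⁻¹) * PP ((a : ℂ)⁻¹) (pt t θ))
    = (a : ℂ) ^ K * (pt t θ) ^ (K * (K + 1) / 2) * ((1 + ζ⁻¹) * PP ζ⁻¹ (pt t θ)) * PP ζ (pt t θ)

/-- A04: logarithmic series of `PP`. -/
def A04 : Prop := ∀ z q : ℂ, ‖z‖ ≤ 1 → ‖q‖ < 1 →
  Summable (fun j : ℕ => ((-1) ^ j * z ^ (j + 1) / ((j : ℂ) + 1)) * (q ^ (j + 1) / (1 - q ^ (j + 1)))) ∧
  PP z q = Complex.exp
    (∑' j : ℕ, ((-1) ^ j * z ^ (j + 1) / ((j : ℂ) + 1)) * (q ^ (j + 1) / (1 - q ^ (j + 1))))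

/-- A05: the logarithmic upper bound used on the arcs near `0` and near `π`. -/
def A05 : Prop := ∀ (a : ℝ) (K : ℕ) (θ : ℝ), 1 < a → 1 ≤ K →
  ∀ t : ℝ, t = Real.log a / K →
  Summable (fun j : ℕ => cf a (K * θ) j / (j + 1) * ((kr ((j + 1 : ℕ) * t) ((j + 1 : ℕ) * θ) - 1) / 2)) ∧
  ‖FF a (pt t θ)‖ ≤ 2 / (1 + a⁻¹) * Real.exp ((Real.log a) ^ 2 / (2 * t) - Real.log a / 2 +
    ∑' j : ℕ, cf a (K * θ) j / (j + 1) * ((kr ((j + 1 : ℕ) * t) ((j + 1 : ℕ) * θ) - 1) / 2))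

/-! ### kernel lemmas -/

/-- B01 -/
def B01 : Prop := ∀ s φ : ℝ, 0 < s → s ≤ 1 → |φ| ≤ Real.pi →
  |kr s φ - 2 * s / (s ^ 2 + φ ^ 2)| ≤ s

/-- B02 -/
def B02 : Prop := ∀ s φ : ℝ, 0 < s → |kr s φ - 1| ≤ 2 / s ∧ 0 < kr s φ ∧
  (0 ≤ Real.cos φ → kr s (φ + Real.pi) ≤ s)

/-- B03: the Fourier series of the second Bernoulli polynomial. -/
def B03 : Prop :=
  (∀ y : ℝ, 0 ≤ y → y ≤ Real.pi →
    HasSum (fun l : ℕ => Real.cos (2 * (l + 1 : ℕ) * y) / ((l : ℝ) + 1) ^ 2)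
      (Real.pi ^ 2 / 6 - Real.pi * y + y ^ 2)) ∧
  (∀ ψ : ℝ, Summable (fun l : ℕ => Real.cos ((l + 1 : ℕ) * ψ) / ((l : ℝ) + 1) ^ 2) ∧
    -(Real.pi ^ 2 / 12) ≤ ∑' l : ℕ, Real.cos ((l + 1 : ℕ) * ψ) / ((l : ℝ) + 1) ^ 2)

/-- B04: numerical bounds for the constants. -/
def B04 : Prop :=
  (Real.log 2) ^ 2 / 2 + 0.3706 ≤ cst 2 ∧ cst 2 ≤ 0.6213 ∧
  (Real.log 3) ^ 2 / 2 + 0.51 ≤ cst 3 ∧ cst 3 ≤ 1.13

/-! ### minor arcs -/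

/-- the bound wanted on a set of angles -/
def Small (a : ℝ) (K : ℕ) (θ : ℝ) : Prop :=
  ‖FF a (pt (Real.log a / K) θ)‖ ≤ (Real.log a / K) * √(Real.log a / K) *
    Real.exp (cst a / (Real.log a / K) - 3)

/-- C01m: the terms `m ≤ 78` near `0`. -/
def C01m : Prop := ∀ (a : ℝ) (K : ℕ) (θ t : ℝ), Adm a K → t = Real.log a / K →
  t ≤ θ → θ ≤ 1 / 25 →
  ∑ j ∈ range 78, cf a (K * θ) j / (j + 1) * ((kr ((j + 1 : ℕ) * t) ((j + 1 : ℕ) * θ) - 1) / 2)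
    ≤ (if a = 2 then 0.25 else 0.30) / t + 6.5

/-- C01r: the terms `m > 78`. -/
def C01r : Prop := ∀ (a : ℝ) (K : ℕ) (θ t : ℝ), Adm a K → t = Real.log a / K →
  ∑' j : ℕ, cf a (K * θ) (j + 78) / ((j + 78 : ℕ) + 1) *
    ((kr ((j + 78 + 1 : ℕ) * t) ((j + 78 + 1 : ℕ) * θ) - 1) / 2) ≤ 0.0386 / t

/-- C01: arc near `0`. -/
def C01 : Prop := ∀ (a : ℝ) (K : ℕ) (θ : ℝ), Adm a K →
  Real.log a / K ≤ θ → θ ≤ 1 / 25 → Small a K θ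

/-- C02m: the even `m ≤ 78` near `π`. -/
def C02m : Prop := ∀ (a : ℝ) (K : ℕ) (θ t : ℝ), Adm a K → t = Real.log a / K →
  Real.pi - 1 / 25 ≤ θ → θ ≤ Real.pi →
  ∑ l ∈ range 39, cf a (K * θ) (2 * l + 1) / ((2 * l + 1 : ℕ) + 1) *
    ((kr ((2 * l + 2 : ℕ) * t) ((2 * l + 2 : ℕ) * θ) - 1) / 2)
    ≤ (if a = 2 then 0.27 else 0.395) / t + 1.4

/-- C02r: the other `m` near `π`. -/
def C02r : Prop := ∀ (a : ℝ) (K : ℕ) (θ t : ℝ), Adm a K → t = Real.log a / K →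
  Real.pi - 1 / 25 ≤ θ → θ ≤ Real.pi →
  (∑ l ∈ range 39, cf a (K * θ) (2 * l) / ((2 * l : ℕ) + 1) *
    ((kr ((2 * l + 1 : ℕ) * t) ((2 * l + 1 : ℕ) * θ) - 1) / 2)) +
  (∑' j : ℕ, cf a (K * θ) (j + 78) / ((j + 78 : ℕ) + 1) *
    ((kr ((j + 78 + 1 : ℕ) * t) ((j + 78 + 1 : ℕ) * θ) - 1) / 2)) ≤ 0.0572 / t + 4.1

/-- C02: arc near `π`. -/
def C02 : Prop := ∀ (a : ℝ) (K : ℕ) (θ : ℝ), Adm a K →
  Real.pi - 1 / 25 ≤ θ → θ ≤ Real.pi → Small a K θ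

/-- D01: the pointwise majorant of degree 2. -/
def D01 : Prop := ∀ ρ φ : ℝ, 0 ≤ ρ → ρ ≤ 1 →
  1 + 2 * ρ * Real.cos φ + ρ ^ 2 ≤ Real.exp (2 * (133 / 300 * ρ ^ 3 - 67 / 400 * ρ ^ 4
    + (ρ - ρ ^ 3 / 3) * Real.cos φ - (ρ ^ 2 / 2 - 3 / 10 * ρ ^ 3) * Real.cos (2 * φ)))

/-- D02: the pointwise majorant of degree 1. -/
def D02 : Prop := ∀ ρ φ : ℝ, 0 ≤ ρ → ρ ≤ 1 →
  1 - 2 * ρ * Real.cos φ + ρ ^ 2 ≤ Real.exp (2 * (ρ ^ 2 / 2 - ρ ^ 4 / 8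
    - (ρ - ρ ^ 3 / 3) * Real.cos φ))

/-- D03: two-sided geometric cosine sums: `T_m(φ) = ∑_{k≥1} e^{-mt|k-K|} cos kφ`. -/
def D03 : Prop := ∀ (s φ : ℝ) (K : ℕ), 0 < s → 1 ≤ K →
  HasSum (fun k : ℕ => Real.exp (-(s * |((k : ℝ) + 1) - K|)) * Real.cos ((k + 1 : ℕ) * φ))
    (Real.cos (K * φ) * kr s φ - Real.exp (-(s * K)) * (1 + kr s φ) / 2) ∧
  HasSum (fun k : ℕ => Real.exp (-(s * |((k : ℝ) + 1) - K|)))
    ((1 + Real.exp (-s) - Real.exp (-(s * K))) / (1 - Real.exp (-s))) ∧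
  HasSum (fun k : ℕ => Real.exp (-(s * (2 * (k : ℝ) + 1))) * Real.cos ((2 * k + 1 : ℕ) * φ))
    ((kr s φ - kr s (φ + Real.pi)) / 4) ∧
  HasSum (fun k : ℕ => Real.exp (-(s * (2 * (k : ℝ) + 1)))) (1 / (2 * Real.sinh s))

/-- D04: the resulting upper bound for `FF`. -/
def D04 : Prop := ∀ (a : ℝ) (K : ℕ) (θ : ℝ), 1 < a → 1 ≤ K → ∀ t : ℝ, t = Real.log a / K →
  ‖FF a (pt t θ)‖ ≤ Real.exp ((Real.log a) ^ 2 / (2 * t) - Real.log a / 2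
    + (∑' k : ℕ, (133 / 300 * Real.exp (-(3 * t * |((k : ℝ) + 1) - K|))
        - 67 / 400 * Real.exp (-(4 * t * |((k : ℝ) + 1) - K|))
        + (Real.exp (-(t * |((k : ℝ) + 1) - K|)) - Real.exp (-(3 * t * |((k : ℝ) + 1) - K|)) / 3)
            * Real.cos ((k + 1 : ℕ) * θ)
        - (Real.exp (-(2 * t * |((k : ℝ) + 1) - K|)) / 2
            - 3 / 10 * Real.exp (-(3 * t * |((k : ℝ) + 1) - K|)))
            * Real.cos ((k + 1 : ℕ) * (2 * θ))))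
    + (∑' k : ℕ, (Real.exp (-(2 * t * (2 * (k : ℝ) + 1))) / 2
        - Real.exp (-(4 * t * (2 * (k : ℝ) + 1))) / 8
        - (Real.exp (-(t * (2 * (k : ℝ) + 1))) - Real.exp (-(3 * t * (2 * (k : ℝ) + 1))) / 3)
            * Real.cos ((2 * k + 1 : ℕ) * θ))))

/-- D05: middle arc. -/
def D05 : Prop := ∀ (a : ℝ) (K : ℕ) (θ : ℝ), Adm a K →
  1 / 25 ≤ θ → θ ≤ Real.pi - 1 / 25 → Small a K θ

/-! ### major arc -/

/-- the function `g(z) = log (1 + a e^{-z}) - log (1 + e^{-z})` -/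
def gg (a : ℝ) (z : ℂ) : ℂ :=
  Complex.log (1 + (a : ℂ) * Complex.exp (-z)) - Complex.log (1 + Complex.exp (-z))

/-- the sector point `u t (1 - i x)` -/
def sp (t x u : ℝ) : ℂ := (u : ℂ) * ((t : ℂ) * (1 - (x : ℂ) * Complex.I))

/-- E01: real parts in the sector. -/
def E01 : Prop := ∀ (b s y : ℝ), 0 ≤ b → b ≤ 3 → 0 ≤ s → |y| ≤ s →
  79 / 100 ≤ 1 + b * Real.exp (-s) * Real.cos y

/-- E02: trapezoidal rule on the half line. -/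
def E02 : Prop := ∀ (G G' G'' : ℝ → ℂ) (A B s : ℝ), 0 < s →
  (∀ u, 0 ≤ u → HasDerivAt G (G' u) u) → (∀ u, 0 ≤ u → HasDerivAt G' (G'' u) u) →
  ContinuousOn G'' (Set.Ici 0) → (∀ u, 0 ≤ u → ‖G'' u‖ ≤ A * Real.exp (-(s * u))) →
  (∀ u, 0 ≤ u → ‖G u‖ ≤ B * Real.exp (-(s * u))) →
  Summable (fun k : ℕ => G (k + 1)) ∧
  ‖(∑' k : ℕ, G (k + 1)) - (∫ u in Set.Ioi (0 : ℝ), G u) + G 0 / 2‖ ≤ A / (8 * s)

/-- E03: the real integral. -/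
def E03 : Prop := ∀ a : ℝ, (a = 2 ∨ a = 3) →
  ∫ u in Set.Ioi (0 : ℝ), (Real.log (1 + a * Real.exp (-u)) - Real.log (1 + Real.exp (-u))) = cst a

/-- E04: rotation of the contour. -/
def E04 : Prop := ∀ (a t x : ℝ), (a = 2 ∨ a = 3) → 0 < t → |x| ≤ 1 →
  ∫ u in Set.Ioi (0 : ℝ), gg a (sp t x u) = (cst a : ℂ) / ((t : ℂ) * (1 - (x : ℂ) * Complex.I))

/-- E05a: `FF` as the exponential of a sum. -/
def E05a : Prop := ∀ (a t x : ℝ), (a = 2 ∨ a = 3) → 0 < t → |x| ≤ 1 →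
  Summable (fun k : ℕ => gg a (sp t x ((k : ℝ) + 1))) ∧
  FF a (pt t (t * x)) = Complex.exp (∑' k : ℕ, gg a (sp t x ((k : ℝ) + 1)))

/-- E05b: derivatives along the ray. -/
def E05b : Prop := ∀ (a t x : ℝ), (a = 2 ∨ a = 3) → 0 < t → |x| ≤ 1 →
  ∃ G' G'' : ℝ → ℂ, (∀ u, 0 ≤ u → HasDerivAt (fun u => gg a (sp t x u)) (G' u) u) ∧
  (∀ u, 0 ≤ u → HasDerivAt G' (G'' u) u) ∧ ContinuousOn G'' (Set.Ici 0) ∧
  (∀ u, 0 ≤ u → ‖G'' u‖ ≤ 12 * t ^ 2 * Real.exp (-(t * u))) ∧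
  (∀ u, 0 ≤ u → ‖G' u‖ ≤ 10 * t * Real.exp (-(t * u))) ∧
  (∀ u, 0 ≤ u → ‖gg a (sp t x u)‖ ≤ 6 * Real.exp (-(t * u)))

/-- E05: the generating function on the major arc. -/
def E05 : Prop := ∀ (a t x : ℝ), (a = 2 ∨ a = 3) → 0 < t → |x| ≤ 1 →
  ∃ E : ℂ, ‖E‖ ≤ 2 * t ∧ FF a (pt t (t * x)) =
    Complex.exp ((cst a : ℂ) / ((t : ℂ) * (1 - (x : ℂ) * Complex.I))
      - ((Real.log ((1 + a) / 2) / 2 : ℝ) : ℂ) + E)

/-- E06a: the real integral behind the main term. -/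
def E06a : Prop := ∀ Y : ℝ, 300 ≤ Y → 1 / 2 * √(Real.pi / Y) * Real.exp Y ≤
  ∫ x in (-1 : ℝ)..1, Real.exp (Y / (1 + x ^ 2)) * (0.989 - (Y * |x| ^ 3 + 1.04 * |x|) ^ 2 / 2)

/-- E06: the main integral. -/
def E06 : Prop := ∀ (a : ℝ) (K n : ℕ), Adm a K → ∀ t : ℝ, t = Real.log a / K →
  |(n : ℝ) * t ^ 2 / cst a - 1| ≤ 1 / (K : ℝ) + 1 / (4 * (K : ℝ) ^ 2) →
  1 / 2 * (t * √t) * Real.exp (cst a / t) ≤
    (∫ θ in (-t)..t, FF a (pt t θ) * Complex.exp (-((n : ℂ) * (θ : ℂ) * Complex.I))).re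

/-! ### final analytic statements -/

/-- F01a: the choice of `K`. -/
def F01a : Prop := ∀ (a : ℝ) (n : ℕ), (a = 2 ∨ a = 3) → 150000 ≤ n →
  ∃ K : ℕ, Adm a K ∧ |(n : ℝ) * (Real.log a / K) ^ 2 / cst a - 1| ≤ 1 / (K : ℝ) + 1 / (4 * (K : ℝ) ^ 2) ∧
    cst a / (Real.log a / K) ≤ √(cst a * n) + cst a / (2 * Real.log a)

/-- F01: positivity for large `n`, and an upper bound. -/
def F01 : Prop := (∀ n : ℕ, 150000 ≤ n → 0 < cc 2 n) ∧ (∀ n : ℕ, 150000 ≤ n → 0 < cc 3 n) ∧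
  (∀ n : ℕ, 150000 ≤ n → (cc 2 n : ℝ) ≤ Real.exp (2 * √(cst 2 * n) + 2))

/-- F02: lower bound for the number of partitions into distinct parts (combinatorial part). -/
def F02 : Prop := ∀ (j n : ℕ), 1 ≤ j → j * (j + 1) / 2 ≤ n →
  ((n : ℝ) - j * (j + 1) / 2) ^ (j - 1) / (j.factorial * (j - 1).factorial) ≤ (qq n : ℝ)

/-- F03: final comparison. -/
def F03 : Prop := ∀ n : ℕ, 150000 ≤ n → Real.exp (2 * √(cst 2 * n) + 2) < (qq n : ℝ)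

/-! ### finite part -/

/-- `pz a Z J = ∑_{j≤J} a^j ∏_{j<i≤J} (Z^i - 1)`. -/
def pz (a Z : ℕ) : ℕ → ℕ
  | 0 => 1
  | (J + 1) => (Z ^ (J + 1) - 1) * pz a Z J + a ^ (J + 1)

/-- G01: Euler identity for coefficients: `∏ (1+X^k) * F_a = ∏ (1 + a X^k)`. -/
def G01 : Prop := ∀ (a : ℤ) (L n : ℕ), n ≤ L →
  cc a n = (fpoly a L).coeff n ∧ (dpoly a L).coeff n = (dpoly a n).coeff n ∧
  ((dpoly 1 L) * (fpoly a L)).coeff n = (dpoly a L).coeff n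

/-- the polynomial `P_a^{(J)} = ∑_{j≤J} a^j X^{j(j+1)/2} ∏_{j<i≤J} (1 - X^i)`. -/
def pj (a : ℤ) : ℕ → ℤ[X]
  | 0 => 1
  | (J + 1) => (1 - X ^ (J + 1)) * pj a J + C (a ^ (J + 1)) * X ^ ((J + 1) * (J + 2) / 2)

/-- G02: `(X;X)_J ∏_{k≥1} (1 + a X^k) ≡ P_a^{(J)}` modulo `X^{(J+1)(J+2)/2}`. -/
def G02 : Prop := ∀ (a : ℤ) (J L n : ℕ), n < (J + 1) * (J + 2) / 2 → n ≤ L →
  ((∏ i ∈ range J, (1 - X ^ (i + 1) : ℤ[X])) * dpoly a L).coeff n = (pj a J).coeff n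

/-- G03: the packed quotient determines the coefficients of the quotient of power series. -/
def G03 : Prop := ∀ (a b : ℕ) (Z J D : ℕ) (d : ℕ → ℤ) (B : ℤ), a ≤ 3 → b ≤ 1 →
  (∀ n, |d n| ≤ B) →
  4 * (2 ^ (J + 1) * B + (J + 1) * 3 ^ J) ≤ Z →
  ((Z ^ D * pz a Z J / pz b Z J : ℕ) : ℤ) = ∑ n ∈ range (D + 1), d n * (Z : ℤ) ^ (D - n) →
  ∀ n < D, ∑ p ∈ antidiagonal n, (pj b J).coeff p.1 * d p.2 = (pj a J).coeff n

/-- G04: reading digits with masks. -/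
def G04 : Prop := ∀ (w s m X : ℕ), s < w → X < (2 ^ w) ^ m →
  X &&& (((2 ^ w) ^ m - 1) / (2 ^ w - 1) * (2 ^ w - 2 ^ s)) = 0 →
  (X + ((2 ^ w) ^ m - 1) / (2 ^ w - 1) * (2 ^ s - 1)) &&& (((2 ^ w) ^ m - 1) / (2 ^ w - 1) * 2 ^ s)
    = ((2 ^ w) ^ m - 1) / (2 ^ w - 1) * 2 ^ s →
  ∃ e : ℕ → ℕ, (∀ i, i < m → 1 ≤ e i ∧ e i < 2 ^ s) ∧ X = ∑ i ∈ range m, e i * (2 ^ w) ^ i

/-- G05: result of the finite check. -/
def G05 : Prop := (∀ n, 34 < n → n < 150000 → 0 < cc 2 n) ∧ (∀ n, 27 < n → n < 150000 → 0 < cc 3 n) ∧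
  (∀ n, 10 < n → n < 150000 → cc 2 n < qq n)

/-! ### combinatorics -/

/-- number of missing integers of a partition: integers `1 ≤ i <` largest part, not a part. -/
def missing {n : ℕ} (p : n.Partition) : ℕ :=
  ((Finset.Ico 1 (p.parts.toFinset.sup id)).filter (fun i => i ∉ p.parts)).card

/-- number of partitions of `n` with an even number of missing integers -/
def Me (n : ℕ) : ℕ := (Finset.univ.filter (fun p : n.Partition => Even (missing p))).card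

/-- number of partitions of `n` with an odd number of missing integers -/
def Mo (n : ℕ) : ℕ := (Finset.univ.filter (fun p : n.Partition => Odd (missing p))).card

/-- overpartitions of `n`: a partition with a set of (overlined) part sizes. -/
abbrev OP (n : ℕ) : Type := (p : n.Partition) × {S : Finset ℕ // S ∈ p.parts.toFinset.powerset}

/-- number of overpartitions of `n` with an even number of missing integers -/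
def OMe (n : ℕ) : ℕ := (Finset.univ.filter (fun p : OP n => Even (missing p.1))).card

/-- number of overpartitions of `n` with an odd number of missing integers -/
def OMo (n : ℕ) : ℕ := (Finset.univ.filter (fun p : OP n => Odd (missing p.1))).card

/-- signed weight `(-1)^{missing} b^{number of part sizes}` summed over the partitions of `n` -/
def ws (b : ℤ) (n : ℕ) : ℤ :=
  ∑ p : n.Partition, (-1) ^ missing p * b ^ p.parts.toFinset.card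

/-- H01 : weights and counts. -/
def H01 : Prop := ∀ n : ℕ, (Me n : ℤ) - Mo n = ws 1 n ∧ (OMe n : ℤ) - OMo n = ws 2 n

/-- `D_ℓ = ∏_{k=1}^ℓ (1 - a X^k)/(1 - X^k)` as a power series. -/
def DD (a : ℤ) (l : ℕ) : PowerSeries ℤ :=
  ∏ k ∈ range l, ((1 - PowerSeries.C a * PowerSeries.X ^ (k + 1)) *
    PowerSeries.invOfUnit (1 - PowerSeries.X ^ (k + 1)) 1)

/-- H02 : the sum over the largest part. -/
def H02 : Prop := ∀ (b : ℤ) (n : ℕ), 1 ≤ n →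
  ws b n = ∑ l ∈ range n, (-1) ^ (l + 1) *
    (PowerSeries.coeff n (DD (b + 1) (l + 1)) - PowerSeries.coeff n (DD (b + 1) l))

/-- H03 : the q-binomial theorem. -/
def H03 : Prop := ∀ (a : ℤ) (n : ℕ), 1 ≤ n →
  ∑ l ∈ range n, (-1) ^ (l + 1) *
    (PowerSeries.coeff n (DD a (l + 1)) - PowerSeries.coeff n (DD a l)) = cc a n

/-- H04 : partitions into distinct parts. -/
def H04 : Prop := ∀ n : ℕ, ((Nat.Partition.distincts n).card : ℤ) = qq n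

end Pool.Agent.N463.MI
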