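import Pool.Agent.N463.MI.K0
namespace Pool.Agent.N463.MI
set_option maxRecDepth 100000 in
theorem kC : okd 1568 1016 150001
    (Xf 1 0 1568 547 150000 + Hf 1568 150000 10 - Xf 2 1 1568 547 150000) = true := by
  decide +kernel
end Pool.Agent.N463.MI
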