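import Pool.Agent.N463.MI.K0
namespace Pool.Agent.N463.MI
set_option maxRecDepth 100000 in
theorem kD : okd 1736 1184 150001 (Xf 3 1 1736 547 150000 + Hf 1736 150000 27) = true := by
  decide +kernel
end Pool.Agent.N463.MI
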