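import Pool.Agent.N463.MI.G05
import Pool.Agent.N463.MI.KA
import Pool.Agent.N463.MI.KB
import Pool.Agent.N463.MI.KC
import Pool.Agent.N463.MI.KD
import Pool.Agent.N106.MI.E02
import Pool.Agent.N123.MI.B01
import Pool.Agent.N163.MI.C02m
import Pool.Agent.N2.MI.D02
import Pool.Agent.N271.MI.C01m
import Pool.Agent.N300.MI.A05
import Pool.Agent.N316.MI.C02
import Pool.Agent.N342.MI.E05
import Pool.Agent.N362.MI.D01
import Pool.Agent.N403.MI.A04
import Pool.Agent.N433.MI.E06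
import Pool.Agent.N457.MI.C01
import Pool.Agent.N457.MI.E05a
import Pool.Agent.N46.MI.E01
import Pool.Agent.N507.MI.A02
import Pool.Agent.N531.MI.H02
import Pool.Agent.N540.MI.H01
import Pool.Agent.N543.MI.G01
import Pool.Agent.N570.MI.H03
import Pool.Agent.N572.MI.A02a
import Pool.Agent.N572.MI.F02
import Pool.Agent.N592.MI.E03
import Pool.Agent.N608.MI.E06a
import Pool.Agent.N681.MI.G02
import Pool.Agent.N687.MI.E05b
import Pool.Agent.N697.MI.B03
import Pool.Agent.N7.MI.D03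
import Pool.Agent.N701.MI.F01
import Pool.Agent.N711.MI.A03
import Pool.Agent.N738.MI.F03
import Pool.Agent.N75.MI.C02r
import Pool.Agent.N75.MI.D04
import Pool.Agent.N768.MI.H04
import Pool.Agent.N769.MI.A01
import Pool.Agent.N771.MI.C01r
import Pool.Agent.N833.MI.B04
import Pool.Agent.N896.MI.G04
import Pool.Agent.N901.MI.B02
import Pool.Agent.N99.MI.F01a
import Pool.Agent.N723.MI.E04
import Pool.Agent.N678.MI.D05
import Pool.Agent.N494.MI.G03

/-! Final assembly of project MI. -/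

namespace Pool.Agent.N463.MI

theorem main :
    (∀ n : ℕ, 34 < n → 0 < cc 2 n) ∧ (∀ n : ℕ, 27 < n → 0 < cc 3 n) ∧
    (∀ n : ℕ, 10 < n → cc 2 n < qq n) := by
  have a1 : A01 := Pool.Agent.N769.MI.t_A01
  have d1 : D01 := Pool.Agent.N362.MI.t_D01
  have d2 : D02 := t_D02
  have d3 : D03 := Pool.Agent.N7.MI.t_D03
  have g3 : G03 := t_G03
  have e3 : E03 := Pool.Agent.N592.MI.t_E03
  have a2a : A02a := Pool.Agent.N572.MI.A02a.t_A02a a1
  have a2 : A02 := Pool.Agent.N507.MI.t_A02 a2a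
  have a3 : A03 := Pool.Agent.N711.MI.A03.t_A03
  have a4 : A04 := Pool.Agent.N403.MI.A04.t_A04
  have a5 : A05 := Pool.Agent.N300.MI.t_A05 a1 a3 a4
  have b1 : B01 := Pool.Agent.N123.MIB01.t_B01
  have b2 : B02 := Pool.Agent.N901.MI.t_B02
  have b3 : B03 := Pool.Agent.N697.MI.t_B03
  have b4 : B04 := Pool.Agent.N833.MI.t_B04
  have c1m : C01m := Pool.Agent.N271.MI.t_C01m b1 b3
  have c1r : C01r := Pool.Agent.N771.MI.C01r.t_C01r b2
  have c1 : C01 := Pool.Agent.N457.MI.t_C01 a5 b4 c1m c1r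
  have c2m : C02m := Pool.Agent.N163.MI.C02m.t_C02m b1 b3
  have c2r : C02r := Pool.Agent.N75.MI.t_C02r b2
  have c2 : C02 := Pool.Agent.N316.MI.t_C02 a5 b4 c2m c2r
  have e1 : E01 := Pool.Agent.N46.MI.E01.t_E01
  have e2 : E02 := Pool.Agent.N106.MI.t_E02
  have e5a : E05a := Pool.Agent.N457.MI.t_E05a e1
  have d4 : D04 := Pool.Agent.N75.MI.t_D04 a1 d1 d2
  have d5 : D05 := Pool.Agent.N678.MI.t_D05 d3 d4 b2 b4
  have e5b : E05b := Pool.Agent.N687.MI.t_E05b e1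
  have e4 : E04 := Pool.Agent.N723.MI.t_E04 e1 e3 e5b
  have e5 : E05 := Pool.Agent.N342.MI.t_E05 e2 e4 e5a e5b
  have e6a : E06a := t_E06a
  have e6 : E06 := Pool.Agent.N433.MI.t_E06 e5 e6a b4 a2
  have f1a : F01a := Pool.Agent.N99.MI.t_F01a b4
  have f1 : F01 := Pool.Agent.N701.MI.t_F01 a2 e5 e6 c1 c2 d5 b4 f1a
  have f2 : F02 := Pool.Agent.N572.MI.F02.t_F02
  have f3 : F03 := Pool.Agent.N738.MI.t_F03 f2 b4
  have g1 : G01 := Pool.Agent.N543.MI.t_G01
  have g2 : G02 := Pool.Agent.N681.MI.t_G02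
  have g4 : G04 := Pool.Agent.N896.MI.t_G04
  have g5 : G05 := t_G05 g1 g2 g3 g4 kA kB kC kD
  obtain ⟨f11, f12, f13⟩ := f1
  obtain ⟨g51, g52, g53⟩ := g5
  refine ⟨fun n hn => ?_, fun n hn => ?_, fun n hn => ?_⟩
  · rcases lt_or_ge n 150000 with h | h
    · exact g51 n hn h
    · exact f11 n h
  · rcases lt_or_ge n 150000 with h | h
    · exact g52 n hn h
    · exact f12 n h
  · rcases lt_or_ge n 150000 with h | h
    · exact g53 n hn h
    · have h1 := f13 n h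
      have h2 := f3 n h
      exact_mod_cast lt_of_le_of_lt h1 h2

theorem ws_eq (b : ℤ) (n : ℕ) (hn : 1 ≤ n) : ws b n = cc (b + 1) n := by
  have h2 : H02 := Pool.Agent.N531.MI.t_H02
  have g1 : G01 := Pool.Agent.N543.MI.t_G01
  have h3 : H03 := Pool.Agent.N570.MI.t_H03 g1
  rw [h2 b n hn, h3 (b + 1) n hn]

theorem even_gt_odd : ∀ n : ℕ, 34 < n → Mo n < Me n := by
  intro n hn
  have h1 : H01 := Pool.Agent.N540.MI.t_H01
  have h2 := (h1 n).1
  rw [ws_eq 1 n (by omega)] at h2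
  have h3 := main.1 n hn
  have h4 : (1 : ℤ) + 1 = 2 := by norm_num
  rw [h4] at h2
  have h5 : (Mo n : ℤ) < Me n := by linarith
  exact_mod_cast h5

theorem over_even_gt_odd : ∀ n : ℕ, 27 < n → OMo n < OMe n := by
  intro n hn
  have h1 : H01 := Pool.Agent.N540.MI.t_H01
  have h2 := (h1 n).2
  rw [ws_eq 2 n (by omega)] at h2
  have h3 := main.2.1 n hn
  have h4 : (2 : ℤ) + 1 = 3 := by norm_num
  rw [h4] at h2
  have h5 : (OMo n : ℤ) < OMe n := by linarith
  exact_mod_cast h5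

theorem diff_lt_distinct : ∀ n : ℕ, 10 < n →
    (Me n : ℤ) - (Mo n : ℤ) < ((Nat.Partition.distincts n).card : ℤ) := by
  intro n hn
  have h1 : H01 := Pool.Agent.N540.MI.t_H01
  have h0 : H04 := Pool.Agent.N768.MI.H04.t_H04
  have h2 := (h1 n).1
  rw [ws_eq 1 n (by omega)] at h2
  have h3 := main.2.2 n hn
  have h4 : (1 : ℤ) + 1 = 2 := by norm_num
  rw [h4] at h2
  rw [h0 n, h2]
  exact h3

end Pool.Agent.N463.MI
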