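import Pool.Agent.N463.MI.K0

/-! Assembly of the finite check. -/

open Finset Polynomial

namespace Pool.Agent.N463.MI

theorem onesf_eq (w m : ℕ) (hw : 1 ≤ w) : onesf w m = ∑ i ∈ range m, (2 ^ w) ^ i := by
  unfold onesf
  have h2 : 2 ≤ 2 ^ w := by
    calc 2 = 2 ^ 1 := by norm_num
      _ ≤ 2 ^ w := Nat.pow_le_pow_right (by norm_num) hw
  exact (Nat.geomSum_eq h2 m).symm

theorem digits (g4 : G04) (w s m X : ℕ) (hs : s < w) (h : okd w s m X = true) :
    ∃ e : ℕ → ℕ, (∀ i, i < m → 1 ≤ e i ∧ e i < 2 ^ s) ∧ X = ∑ i ∈ range m, e i * (2 ^ w) ^ i := by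
  unfold okd at h
  rw [Bool.and_eq_true, Bool.and_eq_true] at h
  obtain ⟨h1, h2, h3⟩ := h
  have h1' : X + 1 ≤ (2 ^ w) ^ m := Nat.le_of_ble_eq_true h1
  have h2' := Nat.eq_of_beq_eq_true h2
  have h3' := Nat.eq_of_beq_eq_true h3
  exact g4 w s m X hs (by omega) h2' h3'

/-- reflect -/
theorem sum_reflect (D : ℕ) (e : ℕ → ℤ) (Z : ℤ) :
    ∑ i ∈ range (D + 1), e i * Z ^ i = ∑ n ∈ range (D + 1), e (D - n) * Z ^ (D - n) := by
  rw [← Finset.sum_range_reflect (fun i => e i * Z ^ i) (D + 1)]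
  apply Finset.sum_congr rfl
  intro n hn
  simp

theorem Hf_cast (w D h : ℕ) (hw : 1 ≤ w) (hD : h ≤ D) :
    ((Hf w D h : ℕ) : ℤ) = ∑ n ∈ range (D + 1), (if n ≤ h then (100 : ℤ) else 0) * ((2 ^ w : ℕ) : ℤ) ^ (D - n) := by
  unfold Hf
  rw [onesf_eq w (h + 1) hw]
  have hsub : range (h + 1) ⊆ range (D + 1) := by
    intro x hx; simp only [Finset.mem_range] at *; omega
  rw [← Finset.sum_subset hsub]
  · push_cast
    rw [← Finset.sum_range_reflect (fun i => ((2 : ℤ) ^ w) ^ i) (h + 1)]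
    rw [Finset.sum_mul, Finset.mul_sum]
    apply Finset.sum_congr rfl
    intro n hn
    simp only [Finset.mem_range] at hn
    rw [if_pos (by omega), ← pow_add]
    congr 2
    omega
  · intro x hx hx'
    simp only [Finset.mem_range] at hx hx'
    rw [if_neg (by omega), zero_mul]

/-- uniqueness of a quotient -/
theorem uniq (P : ℤ[X]) (hP : P.coeff 0 = 1) (d G R : ℕ → ℤ) (D : ℕ)
    (h1 : ∀ n < D, ∑ p ∈ antidiagonal n, P.coeff p.1 * d p.2 = R n)
    (h2 : ∀ n < D, ∑ p ∈ antidiagonal n, P.coeff p.1 * G p.2 = R n) :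
    ∀ n < D, d n = G n := by
  intro n
  induction n using Nat.strong_induction_on with
  | _ n ih =>
    intro hn
    have e1 := h1 n hn
    have e2 := h2 n hn
    rw [← e2] at e1
    have hmem : ((0 : ℕ), n) ∈ antidiagonal n := by simp
    rw [← Finset.add_sum_erase (antidiagonal n) (fun p : ℕ × ℕ => P.coeff p.1 * d p.2) hmem,
      ← Finset.add_sum_erase (antidiagonal n) (fun p : ℕ × ℕ => P.coeff p.1 * G p.2) hmem] at e1
    have e3 : ∑ x ∈ (antidiagonal n).erase (0, n), P.coeff x.1 * d x.2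
        = ∑ x ∈ (antidiagonal n).erase (0, n), P.coeff x.1 * G x.2 := by
      apply Finset.sum_congr rfl
      intro x hx
      rw [Finset.mem_erase] at hx
      obtain ⟨hx1, hx2⟩ := hx
      rw [Finset.HasAntidiagonal.mem_antidiagonal] at hx2
      have : x.2 < n := by
        rcases x with ⟨u, v⟩
        simp only at hx2 ⊢
        rcases Nat.eq_zero_or_pos u with hu | hu
        · exfalso
          apply hx1
          subst hu
          simp at hx2
          rw [hx2]
        · omega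
      rw [ih x.2 this (by omega)]
    rw [e3] at e1
    simp only [hP, one_mul] at e1
    linarith

theorem pj_coeff_zero (a : ℤ) (J : ℕ) : (pj a J).coeff 0 = 1 := by
  induction J with
  | zero => simp [pj]
  | succ J ih =>
    have h : 0 ≠ (J + 1) * (J + 2) / 2 := by
      have : 2 ≤ (J + 1) * (J + 2) := by nlinarith
      omega
    rw [pj, coeff_add, mul_coeff_zero, coeff_C_mul, coeff_X_pow, if_neg h, ih]
    simp

theorem pj_zero (J : ℕ) : pj 0 J = ∏ i ∈ range J, (1 - X ^ (i + 1) : ℤ[X]) := by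
  induction J with
  | zero => simp [pj]
  | succ J ih =>
    rw [pj, Finset.prod_range_succ, ih]
    simp
    ring

/-- recursion for `cc` -/
theorem rec_cc (g1 : G01) (g2 : G02) (a : ℤ) (J n : ℕ) (hn : n < (J + 1) * (J + 2) / 2) :
    ∑ p ∈ antidiagonal n, (pj 1 J).coeff p.1 * cc a p.2 = (pj a J).coeff n := by
  set W : ℤ[X] := ∏ i ∈ range J, (1 - X ^ (i + 1) : ℤ[X]) with hW
  have e1 : (pj a J).coeff n = (W * dpoly a n).coeff n := (g2 a J n n hn le_rfl).symm
  have e2 : (W * dpoly a n).coeff n = (W * (dpoly 1 n * fpoly a n)).coeff n := by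
    rw [coeff_mul, coeff_mul]
    apply Finset.sum_congr rfl
    intro p hp
    rw [Finset.HasAntidiagonal.mem_antidiagonal] at hp
    rw [(g1 a n p.2 (by omega)).2.2]
  rw [e1, e2, ← mul_assoc, coeff_mul]
  apply Finset.sum_congr rfl
  intro p hp
  rw [Finset.HasAntidiagonal.mem_antidiagonal] at hp
  rw [g2 1 J n p.1 (by omega) (by omega), (g1 a n p.2 (by omega)).1]

/-- recursion for `qq` -/
theorem rec_qq (g1 : G01) (g2 : G02) (J n : ℕ) (hn : n < (J + 1) * (J + 2) / 2) :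
    ∑ p ∈ antidiagonal n, (pj 0 J).coeff p.1 * qq p.2 = (pj 1 J).coeff n := by
  have e1 : (pj 1 J).coeff n = (pj 0 J * dpoly 1 n).coeff n := by
    rw [pj_zero]; exact (g2 1 J n n hn le_rfl).symm
  rw [e1, coeff_mul]
  apply Finset.sum_congr rfl
  intro p hp
  rw [Finset.HasAntidiagonal.mem_antidiagonal] at hp
  rw [(g1 1 n p.2 (by omega)).2.1]
  rfl

/-- from a packed quotient with known digits to coefficients -/
theorem coeffs (g3 : G03) (g4 : G04) (a b w s J D h : ℕ) (ha : a ≤ 3) (hb : b ≤ 1) (hJ : J ≤ 1024)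
    (hs : s < w) (hs7 : 7 ≤ s) (hh : h ≤ D)
    (hZ : 4 * (2 ^ (J + 1) * (2 ^ s : ℤ) + (J + 1) * 3 ^ J) ≤ ((2 ^ w : ℕ) : ℤ))
    (hc : okd w s (D + 1) (Xf a b w J D + Hf w D h) = true)
    (G : ℕ → ℤ) (hG : ∀ n < D, ∑ p ∈ antidiagonal n, (pj b J).coeff p.1 * G p.2 = (pj a J).coeff n) :
    ∃ d : ℕ → ℤ, (∀ n ≤ D, (if n ≤ h then (-99 : ℤ) else 1) ≤ d n ∧ d n < 2 ^ s) ∧
      (∀ n < D, d n = G n) ∧
      ((Xf a b w J D : ℕ) : ℤ) = ∑ n ∈ range (D + 1), d n * ((2 ^ w : ℕ) : ℤ) ^ (D - n) := by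
  obtain ⟨e, he, hX⟩ := digits g4 w s (D + 1) _ hs hc
  have h27 : (2 : ℤ) ^ 7 ≤ 2 ^ s := pow_le_pow_right₀ (by norm_num) hs7
  let d : ℕ → ℤ := fun n => if n ≤ D then (e (D - n) : ℤ) - (if n ≤ h then (100 : ℤ) else 0) else 0
  have hd1 : ∀ n ≤ D, (if n ≤ h then (-99 : ℤ) else 1) ≤ d n ∧ d n < 2 ^ s := by
    intro n hn
    have h1 := he (D - n) (by omega)
    have h1a : (1 : ℤ) ≤ e (D - n) := by exact_mod_cast h1.1
    have h1b : (e (D - n) : ℤ) < 2 ^ s := by exact_mod_cast h1.2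
    simp only [d, if_pos hn]
    split_ifs <;> constructor <;> linarith
  have hsum : ((Xf a b w J D : ℕ) : ℤ) = ∑ n ∈ range (D + 1), d n * ((2 ^ w : ℕ) : ℤ) ^ (D - n) := by
    have h2 : ((Xf a b w J D : ℕ) : ℤ) + ((Hf w D h : ℕ) : ℤ)
        = ∑ n ∈ range (D + 1), (e (D - n) : ℤ) * ((2 ^ w : ℕ) : ℤ) ^ (D - n) := by
      rw [← sum_reflect D (fun i => (e i : ℤ)) ((2 ^ w : ℕ) : ℤ)]
      exact_mod_cast hX
    rw [Hf_cast w D h (by omega) hh] at h2
    have h3 : ((Xf a b w J D : ℕ) : ℤ) = ∑ n ∈ range (D + 1), (e (D - n) : ℤ) * ((2 ^ w : ℕ) : ℤ) ^ (D - n)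
        - ∑ n ∈ range (D + 1), (if n ≤ h then (100 : ℤ) else 0) * ((2 ^ w : ℕ) : ℤ) ^ (D - n) := by
      linarith
    rw [h3, ← Finset.sum_sub_distrib]
    apply Finset.sum_congr rfl
    intro n hn
    rw [Finset.mem_range] at hn
    simp only [d, if_pos (show n ≤ D by omega)]
    ring
  refine ⟨d, hd1, ?_, hsum⟩
  have hdB : ∀ n, |d n| ≤ (2 : ℤ) ^ s := by
    intro n
    by_cases hn : n ≤ D
    · have := hd1 n hn
      rw [abs_le]
      constructor
      · have h1 := this.1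
        split_ifs at h1 <;> linarith
      · linarith [this.2]
    · simp only [d, if_neg hn, abs_zero]
      positivity
  have hX2 : Xf a b w J D = (2 ^ w) ^ D * pz a (2 ^ w) J / pz b (2 ^ w) J := by
    unfold Xf
    rw [pzf_eq _ _ _ hJ, pzf_eq _ _ _ hJ]
  have key := g3 a b (2 ^ w) J D d (2 ^ s) ha hb hdB hZ (by rw [← hX2]; exact hsum)
  exact uniq (pj b J) (pj_coeff_zero _ _) d G (fun n => (pj a J).coeff n) D key hG

/-- uniqueness of balanced digits -/
theorem digit_uniq (Z : ℤ) (hZ : 2 ≤ Z) : ∀ (m : ℕ) (f : ℕ → ℤ), (∀ i < m, |f i| < Z) →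
    ∑ i ∈ range m, f i * Z ^ i = 0 → ∀ i < m, f i = 0 := by
  intro m
  induction m with
  | zero => intro f _ _ i hi; omega
  | succ m ih =>
    intro f hf hs
    rw [Finset.sum_range_succ'] at hs
    have h0 : Z ∣ f 0 := by
      have : f 0 = -(∑ k ∈ range m, f (k + 1) * Z ^ (k + 1)) := by
        simp at hs; linarith
      rw [this, dvd_neg]
      apply Finset.dvd_sum
      intro k _
      exact Dvd.dvd.mul_left (dvd_pow_self Z (by omega)) _
    have h00 : f 0 = 0 := Int.eq_zero_of_abs_lt_dvd h0 (hf 0 (by omega))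
    have hs' : ∑ k ∈ range m, f (k + 1) * Z ^ k = 0 := by
      rw [h00] at hs
      have h5 : ∑ k ∈ range m, f (k + 1) * Z ^ (k + 1) = Z * ∑ k ∈ range m, f (k + 1) * Z ^ k := by
        rw [Finset.mul_sum]
        apply Finset.sum_congr rfl
        intro k _
        ring
      rw [h5] at hs
      simp at hs
      rcases hs with h | h
      · omega
      · exact h
    intro i hi
    rcases Nat.eq_zero_or_pos i with h | h
    · rw [h]; exact h00
    · have h7 := ih (fun k => f (k + 1)) (fun k hk => hf (k + 1) (by omega)) hs' (i - 1) (by omega)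
      have h8 : i - 1 + 1 = i := Nat.sub_add_cancel h
      rw [← h8]
      exact h7

theorem t_G05 (g1 : G01) (g2 : G02) (g3 : G03) (g4 : G04)
    (kA : okd 1568 1016 150001 (Xf 2 1 1568 547 150000 + Hf 1568 150000 34) = true)
    (kB : okd 1568 1016 150001 (Xf 1 0 1568 547 150000 + Hf 1568 150000 34) = true)
    (kC : okd 1568 1016 150001
      (Xf 1 0 1568 547 150000 + Hf 1568 150000 10 - Xf 2 1 1568 547 150000) = true)
    (kD : okd 1736 1184 150001 (Xf 3 1 1736 547 150000 + Hf 1736 150000 27) = true) : G05 := by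
  have hw1n : 4 * (2 ^ (547 + 1) * 2 ^ 1016 + (547 + 1) * 3 ^ 547) ≤ 2 ^ 1568 := by
    decide +kernel
  have hw2n : 4 * (2 ^ (547 + 1) * 2 ^ 1184 + (547 + 1) * 3 ^ 547) ≤ 2 ^ 1736 := by
    decide +kernel
  have hw1 : 4 * (2 ^ (547 + 1) * (2 ^ 1016 : ℤ) + ((547 : ℕ) + 1) * 3 ^ 547) ≤ ((2 ^ 1568 : ℕ) : ℤ) := by
    exact_mod_cast hw1n
  have hw2 : 4 * (2 ^ (547 + 1) * (2 ^ 1184 : ℤ) + ((547 : ℕ) + 1) * 3 ^ 547) ≤ ((2 ^ 1736 : ℕ) : ℤ) := by
    exact_mod_cast hw2n
  obtain ⟨dA, hA1, hA2, hA3⟩ := coeffs g3 g4 2 1 1568 1016 547 150000 34 (by norm_num) (by norm_num)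
    (by norm_num) (by norm_num) (by norm_num) (by norm_num) hw1 kA (cc 2)
    (fun n hn => rec_cc g1 g2 2 547 n (by omega))
  obtain ⟨dB, hB1, hB2, hB3⟩ := coeffs g3 g4 1 0 1568 1016 547 150000 34 (by norm_num) (by norm_num)
    (by norm_num) (by norm_num) (by norm_num) (by norm_num) hw1 kB qq
    (fun n hn => rec_qq g1 g2 547 n (by omega))
  obtain ⟨dD, hD1, hD2, hD3⟩ := coeffs g3 g4 3 1 1736 1184 547 150000 27 (by norm_num) (by norm_num)
    (by norm_num) (by norm_num) (by norm_num) (by norm_num) hw2 kD (cc 3)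
    (fun n hn => rec_cc g1 g2 3 547 n (by omega))
  refine ⟨?_, ?_, ?_⟩
  · intro n hn hn2
    have := (hA1 n (by omega)).1
    rw [if_neg (by omega), hA2 n (by omega)] at this
    linarith
  · intro n hn hn2
    have := (hD1 n (by omega)).1
    rw [if_neg (by omega), hD2 n (by omega)] at this
    linarith
  · intro n hn hn2
    obtain ⟨e, he, hX⟩ := digits g4 1568 1016 150001 _ (by norm_num) kC
    have hpos : 0 < ∑ i ∈ range 150001, e i * (2 ^ 1568) ^ i := by
      have : e 0 * (2 ^ 1568) ^ 0 ≤ ∑ i ∈ range 150001, e i * (2 ^ 1568) ^ i :=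
        Finset.single_le_sum (f := fun i => e i * (2 ^ 1568) ^ i) (fun i _ => Nat.zero_le _)
          (Finset.mem_range.mpr (by norm_num))
      have h1 := (he 0 (by norm_num)).1
      have h2 : e 0 * (2 ^ 1568) ^ 0 = e 0 := by rw [pow_zero, mul_one]
      omega
    rw [← hX] at hpos
    have hle : Xf 2 1 1568 547 150000 ≤ Xf 1 0 1568 547 150000 + Hf 1568 150000 10 := by
      by_contra hcon
      rw [Nat.sub_eq_zero_of_le (by omega)] at hpos
      exact lt_irrefl 0 hpos
    have hX' : ((Xf 1 0 1568 547 150000 : ℕ) : ℤ) + ((Hf 1568 150000 10 : ℕ) : ℤ)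
        - ((Xf 2 1 1568 547 150000 : ℕ) : ℤ) = ∑ i ∈ range 150001, (e i : ℤ) * ((2 ^ 1568 : ℕ) : ℤ) ^ i := by
      have h6 : ((Xf 1 0 1568 547 150000 + Hf 1568 150000 10 - Xf 2 1 1568 547 150000 : ℕ) : ℤ)
          = ∑ i ∈ range 150001, (e i : ℤ) * ((2 ^ 1568 : ℕ) : ℤ) ^ i := by
        exact_mod_cast congrArg (fun x : ℕ => (x : ℤ)) hX
      rw [Nat.cast_sub hle, Nat.cast_add] at h6
      exact h6
    set Z : ℤ := ((2 ^ 1568 : ℕ) : ℤ) with hZ
    rw [sum_reflect 150000 (fun i => (e i : ℤ)) Z, hA3, hB3, Hf_cast 1568 150000 10 (by norm_num) (by norm_num)] at hX'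
    -- all digits agree
    let f : ℕ → ℤ := fun i => dB (150000 - i) + (if 150000 - i ≤ 10 then (100 : ℤ) else 0)
      - dA (150000 - i) - e i
    have hf0 : ∑ i ∈ range 150001, f i * Z ^ i = 0 := by
      rw [sum_reflect 150000 f Z]
      have : ∀ m ∈ range (150000 + 1), f (150000 - m) * Z ^ (150000 - m)
          = (dB m * Z ^ (150000 - m) + (if m ≤ 10 then (100 : ℤ) else 0) * Z ^ (150000 - m)
            - dA m * Z ^ (150000 - m)) - (e (150000 - m) : ℤ) * Z ^ (150000 - m) := by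
        intro m hm
        rw [Finset.mem_range] at hm
        simp only [f]
        rw [show 150000 - (150000 - m) = m by omega]
        ring
      rw [Finset.sum_congr rfl this, Finset.sum_sub_distrib, Finset.sum_sub_distrib,
        Finset.sum_add_distrib]
      linarith
    have hZbn : 4 * 2 ^ 1016 ≤ 2 ^ 1568 := by decide +kernel
    have hZbig : (4 : ℤ) * 2 ^ 1016 ≤ Z := by rw [hZ]; exact_mod_cast hZbn
    have h2s : (2 : ℤ) ^ 7 ≤ 2 ^ 1016 := pow_le_pow_right₀ (by norm_num) (by norm_num)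
    have hfb : ∀ i < 150001, |f i| < Z := by
      intro i hi
      have h1 := he i hi
      have h1a : (1 : ℤ) ≤ e i := by exact_mod_cast h1.1
      have h1b : (e i : ℤ) < 2 ^ 1016 := by exact_mod_cast h1.2
      have h2 := hA1 (150000 - i) (by omega)
      have h3 := hB1 (150000 - i) (by omega)
      have h2a : (-99 : ℤ) ≤ dA (150000 - i) := by
        have := h2.1; split_ifs at this <;> linarith
      have h3a : (-99 : ℤ) ≤ dB (150000 - i) := by
        have := h3.1; split_ifs at this <;> linarith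
      have h2b := h2.2
      have h3b := h3.2
      clear h2 h3
      simp only [f]
      clear_value Z
      generalize (2 : ℤ) ^ 1016 = T at *
      have h128 : (128 : ℤ) ≤ T := by linarith
      rw [abs_lt]
      constructor <;> split_ifs <;> linarith
    have hZ2 : (2 : ℤ) ≤ Z := by
      clear_value Z
      generalize (2 : ℤ) ^ 1016 = T at *
      linarith
    have hall := digit_uniq Z hZ2 150001 f hfb hf0 (150000 - n) (by omega)
    simp only [f] at hall
    rw [show 150000 - (150000 - n) = n by omega, if_neg (by omega)] at hall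
    have h1 := (he (150000 - n) (by omega)).1
    have h1a : (1 : ℤ) ≤ e (150000 - n) := by exact_mod_cast h1
    rw [hA2 n (by omega), hB2 n (by omega)] at hall
    linarith

end Pool.Agent.N463.MI
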