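import Pool.Agent.N463.MI.Stm

/-! Kernel computation for the finite part: binary splitting and mask checks. -/

namespace Pool.Agent.N463.MI

/-- binary splitting: `(U, V)` for the indices `l+1, …, l+m`:
`p(l+m) = U p(l) + a^l V`. -/
def seg (a Z : ℕ) : ℕ → ℕ → ℕ → ℕ × ℕ
  | 0, l, m => bif Nat.beq m 0 then (1, 0) else (Z ^ (l + 1) - 1, a)
  | f + 1, l, m =>
      ((seg a Z f l (m / 2)).1 * (seg a Z f (l + m / 2) (m - m / 2)).1,
       (seg a Z f (l + m / 2) (m - m / 2)).1 * (seg a Z f l (m / 2)).2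
        + a ^ (m / 2) * (seg a Z f (l + m / 2) (m - m / 2)).2)

/-- the number `pz a Z J`, computed -/
def pzf (a Z J : ℕ) : ℕ := (seg a Z 10 0 J).1 + (seg a Z 10 0 J).2

def onesf (w m : ℕ) : ℕ := ((2 ^ w) ^ m - 1) / (2 ^ w - 1)

def okd (w s m X : ℕ) : Bool :=
  Nat.ble (X + 1) ((2 ^ w) ^ m) &&
  (Nat.beq (Nat.land X (onesf w m * (2 ^ w - 2 ^ s))) 0 &&
  Nat.beq (Nat.land (X + onesf w m * (2 ^ s - 1)) (onesf w m * 2 ^ s)) (onesf w m * 2 ^ s))

/-- the packed quotient -/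
def Xf (a b w J D : ℕ) : ℕ := (2 ^ w) ^ D * pzf a (2 ^ w) J / pzf b (2 ^ w) J

/-- the packed offset `100` in the digits `0..h` -/
def Hf (w D h : ℕ) : ℕ := 100 * (onesf w (h + 1) * (2 ^ w) ^ (D - h))

theorem seg_spec (a Z : ℕ) : ∀ (f l m : ℕ), m ≤ 2 ^ f →
    (seg a Z f l m).1 * pz a Z l + a ^ l * (seg a Z f l m).2 = pz a Z (l + m) := by
  intro f
  induction f with
  | zero =>
    intro l m hm
    have : m = 0 ∨ m = 1 := by simp at hm; omega
    rcases this with rfl | rfl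
    · simp [seg]
    · have hb : Nat.beq 1 0 = false := rfl
      simp only [seg, hb, cond_false, pz]
      ring
  | succ f ih =>
    intro l m hm
    have h2 : 2 ^ (f + 1) = 2 * 2 ^ f := by ring
    have h1 := ih l (m / 2) (by omega)
    have h3 := ih (l + m / 2) (m - m / 2) (by omega)
    have h4 : l + m / 2 + (m - m / 2) = l + m := by omega
    rw [h4, ← h1] at h3
    rw [← h3]
    simp only [seg]
    ring

theorem pzf_eq (a Z J : ℕ) (hJ : J ≤ 1024) : pzf a Z J = pz a Z J := by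
  have := seg_spec a Z 10 0 J (by norm_num; exact hJ)
  simp [pz] at this
  exact this

end Pool.Agent.N463.MI
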